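import Pool.Agent.ANR.Stmts
import Pool.Agent.ANR.Stmts2

set_option autoImplicit false

open scoped BigOperators ComplexConjugate

noncomputable section

namespace Pool.Agent.ANR.H49

theorem rkb (lv2 : Lv2Stmt) (lvs : LvsStmt) : RkbStmt := by
  intro X _ _ H H' κ κ' F hN hN' hO
  obtain ⟨L, hL0, hL1, hL2⟩ := lvs X H κ F hN
  rw [Finset.sum_comm]
  have h1 : ∀ y ∈ Fᶜ, ∑ x ∈ Fᶜ, κ x * κ y * ‖Gr H κ x y - Gr H' κ' x y‖ ^ 2 ≤
      κ y * (4 * L y) := by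
    intro y hy
    have hy' : y ∉ F := Finset.mem_compl.1 hy
    have h2 := (lv2 X H H' κ κ' F y y (L y) (L y) hN hN' hO hy' hy' (hL0 y) (hL0 y)
      (hL1 y hy') (hL1 y hy')).2.1
    have h3 : ∑ x ∈ Fᶜ, κ x * κ y * ‖Gr H κ x y - Gr H' κ' x y‖ ^ 2 =
        κ y * ∑ z ∈ Fᶜ, κ z * ‖Gr H κ z y - Gr H' κ' z y‖ ^ 2 := by
      rw [Finset.mul_sum]
      exact Finset.sum_congr rfl fun z _ => by ring
    rw [h3]
    exact mul_le_mul_of_nonneg_left h2 (hN.pos y).le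
  refine (Finset.sum_le_sum h1).trans ?_
  have h4 : ∑ y ∈ Fᶜ, κ y * (4 * L y) = 4 * ∑ x ∈ Fᶜ, κ x * L x := by
    rw [Finset.mul_sum]
    exact Finset.sum_congr rfl fun z _ => by ring
  rw [h4]
  exact mul_le_mul_of_nonneg_left hL2 (by norm_num)

theorem cs {X : Type} (P : Finset X) (κ : X → ℝ) (a b : X → ℂ) (g m : ℝ) (hκ : ∀ y ∈ P, 0 ≤ κ y)
    (hg : ∑ y ∈ P, κ y * ‖a y‖ ^ 2 ≤ g) (hm : ∑ y ∈ P, κ y * ‖a y - b y‖ ^ 2 ≤ m) (c : X → ℝ)
    (hc : ∀ y ∈ P, c y ≤ ‖a y - b y‖ * (2 * ‖a y‖ + ‖a y - b y‖)) :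
    ∑ y ∈ P, κ y * c y ≤ 2 * Real.sqrt (g * m) + m := by
  have h1 : ∑ y ∈ P, κ y * c y ≤
      2 * ∑ y ∈ P, κ y * (‖a y‖ * ‖a y - b y‖) + ∑ y ∈ P, κ y * ‖a y - b y‖ ^ 2 := by
    rw [Finset.mul_sum, ← Finset.sum_add_distrib]
    refine Finset.sum_le_sum fun y hy => ?_
    have := mul_le_mul_of_nonneg_left (hc y hy) (hκ y hy)
    nlinarith
  have h2 : (∑ y ∈ P, κ y * (‖a y‖ * ‖a y - b y‖)) ^ 2 ≤
      (∑ y ∈ P, κ y * ‖a y‖ ^ 2) * ∑ y ∈ P, κ y * ‖a y - b y‖ ^ 2 := by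
    refine Finset.sum_sq_le_sum_mul_sum_of_sq_le_mul _ ?_ ?_ ?_
    · intro y hy
      exact mul_nonneg (hκ y hy) (by positivity)
    · intro y hy
      exact mul_nonneg (hκ y hy) (by positivity)
    · intro y _
      exact le_of_eq (by ring)
  have hm0 : 0 ≤ ∑ y ∈ P, κ y * ‖a y - b y‖ ^ 2 :=
    Finset.sum_nonneg fun y hy => mul_nonneg (hκ y hy) (by positivity)
  have hg0 : 0 ≤ ∑ y ∈ P, κ y * ‖a y‖ ^ 2 :=
    Finset.sum_nonneg fun y hy => mul_nonneg (hκ y hy) (by positivity)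
  have h3 : ∑ y ∈ P, κ y * (‖a y‖ * ‖a y - b y‖) ≤ Real.sqrt (g * m) :=
    Real.le_sqrt_of_sq_le (h2.trans (mul_le_mul hg hm hm0 (hg0.trans hg)))
  linarith

theorem thd : ThdStmt := by
  intro X _ _ G G' κ P x g m hκ hg hm
  have hadd : ∀ a b : ℂ, ‖a + b‖ ≤ 2 * ‖a‖ + ‖a - b‖ := by
    intro a b
    calc ‖a + b‖ = ‖(a + a) - (a - b)‖ := by congr 1; ring
      _ ≤ ‖a + a‖ + ‖a - b‖ := norm_sub_le _ _
      _ ≤ 2 * ‖a‖ + ‖a - b‖ := by
        have := norm_add_le a a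
        linarith
  refine ⟨?_, ?_, ?_⟩
  · rw [← Finset.sum_sub_distrib]
    refine (norm_sum_le _ _).trans ?_
    have h1 : ∀ y ∈ P, ‖(κ y : ℂ) * G x y ^ 2 - (κ y : ℂ) * G' x y ^ 2‖ =
        κ y * ‖G x y ^ 2 - G' x y ^ 2‖ := by
      intro y hy
      rw [← mul_sub, norm_mul, Complex.norm_real, Real.norm_of_nonneg (hκ y hy)]
    rw [Finset.sum_congr rfl h1]
    refine cs P κ (fun y => G x y) (fun y => G' x y) g m hκ hg hm _ ?_
    intro y _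
    have h2 : G x y ^ 2 - G' x y ^ 2 = (G x y - G' x y) * (G x y + G' x y) := by ring
    rw [h2, norm_mul]
    exact mul_le_mul_of_nonneg_left (hadd _ _) (norm_nonneg _)
  · rw [← Finset.sum_sub_distrib]
    refine (Finset.abs_sum_le_sum_abs _ _).trans ?_
    have h1 : ∀ y ∈ P, |κ y * (G x y).re ^ 2 - κ y * (G' x y).re ^ 2| =
        κ y * |(G x y).re ^ 2 - (G' x y).re ^ 2| := by
      intro y hy
      rw [← mul_sub, abs_mul, abs_of_nonneg (hκ y hy)]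
    rw [Finset.sum_congr rfl h1]
    refine cs P κ (fun y => G x y) (fun y => G' x y) g m hκ hg hm _ ?_
    intro y _
    have h2 : (G x y).re ^ 2 - (G' x y).re ^ 2 =
        (G x y - G' x y).re * (G x y + G' x y).re := by
      rw [Complex.sub_re, Complex.add_re]
      ring
    rw [h2, abs_mul]
    exact mul_le_mul (Complex.abs_re_le_norm _) ((Complex.abs_re_le_norm _).trans (hadd _ _))
      (abs_nonneg _) (norm_nonneg _)
  · rw [← Finset.sum_sub_distrib]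
    refine (Finset.abs_sum_le_sum_abs _ _).trans ?_
    have h1 : ∀ y ∈ P, |κ y * ‖G x y‖ ^ 2 - κ y * ‖G' x y‖ ^ 2| =
        κ y * |‖G x y‖ ^ 2 - ‖G' x y‖ ^ 2| := by
      intro y hy
      rw [← mul_sub, abs_mul, abs_of_nonneg (hκ y hy)]
    rw [Finset.sum_congr rfl h1]
    refine cs P κ (fun y => G x y) (fun y => G' x y) g m hκ hg hm _ ?_
    intro y _
    have h2 : ‖G x y‖ ^ 2 - ‖G' x y‖ ^ 2 = (‖G x y‖ - ‖G' x y‖) * (‖G x y‖ + ‖G' x y‖) := by ring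
    have h3 : ‖G' x y‖ ≤ ‖G x y‖ + ‖G x y - G' x y‖ := by
      have := norm_sub_norm_le (G' x y) (G x y)
      rw [norm_sub_rev] at this
      linarith
    rw [h2, abs_mul, abs_of_nonneg (by positivity : 0 ≤ ‖G x y‖ + ‖G' x y‖)]
    exact mul_le_mul (abs_norm_sub_norm_le _ _) (by linarith) (by positivity) (norm_nonneg _)

end Pool.Agent.ANR.H49
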